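import Mathlib

/-!
# Transport and base change of formal smoothness at a prime (general lemmas), project G of helper223
-/

set_option autoImplicit false

namespace Pool.Agent.Y67.G6

open scoped TensorProduct

/-- Transport of smoothness at a prime along a semilinear isomorphism. -/
theorem smooth_transport {O A A' : Type} [CommRing O] [CommRing A] [CommRing A'] [Algebra O A]
    [Algebra O A'] (t : O ≃+* O) (φ : A ≃+* A')
    (h : ∀ o, φ (algebraMap O A o) = algebraMap O A' (t o)) (q' : Ideal A') [q'.IsPrime]
    (q : Ideal A) [q.IsPrime] (hq : ∀ a, a ∈ q ↔ φ a ∈ q') (H : Algebra.IsSmoothAt O q) :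
    Algebra.IsSmoothAt O q' := by
  have hM : Submonoid.map φ.toMonoidHom q.primeCompl = q'.primeCompl := by
    ext x
    constructor
    · rintro ⟨a, ha, rfl⟩
      exact fun h => ha ((hq a).2 h)
    · intro hx
      refine ⟨φ.symm x, fun h => hx ?_, φ.apply_symm_apply x⟩
      have h2 := (hq _).1 h
      rwa [φ.apply_symm_apply] at h2
  let e : Localization.AtPrime q ≃+* Localization.AtPrime q' :=
    IsLocalization.ringEquivOfRingEquiv (Localization.AtPrime q) (Localization.AtPrime q') φ hM
  have he : algebraMap O (Localization.AtPrime q') =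
      (e : Localization.AtPrime q →+* Localization.AtPrime q').comp
        ((algebraMap O (Localization.AtPrime q)).comp (t.symm : O →+* O)) := by
    ext o
    rw [RingHom.comp_apply, RingHom.comp_apply, IsScalarTower.algebraMap_apply O A (Localization.AtPrime q),
      IsScalarTower.algebraMap_apply O A' (Localization.AtPrime q')]
    change _ = e (algebraMap A (Localization.AtPrime q) (algebraMap O A (t.symm o)))
    have h3 : e (algebraMap A (Localization.AtPrime q) (algebraMap O A (t.symm o))) =
        algebraMap A' (Localization.AtPrime q') (φ (algebraMap O A (t.symm o))) :=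
      IsLocalization.ringEquivOfRingEquiv_eq hM _
    rw [h3, h, t.apply_symm_apply]
  have H1 : (algebraMap O (Localization.AtPrime q)).FormallySmooth :=
    RingHom.formallySmooth_algebraMap.2 H
  have H2 : (algebraMap O (Localization.AtPrime q')).FormallySmooth := by
    rw [he]
    exact ((RingHom.FormallySmooth.of_bijective t.symm.bijective).comp H1).comp
      (RingHom.FormallySmooth.of_bijective e.bijective)
  exact RingHom.formallySmooth_algebraMap.1 H2

/-- Base change of smoothness at a prime. -/
theorem smooth_bc {D O A B : Type} [CommRing D] [CommRing O] [CommRing A] [CommRing B]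
    [Algebra D O] [Algebra D A] [Algebra D B] [Algebra O B] [IsScalarTower D O B] (i : A →ₐ[D] B)
    (hb : Function.Bijective (Algebra.TensorProduct.lift (Algebra.ofId O B) i
      (fun _ _ => Commute.all _ _)))
    (q : Ideal B) [q.IsPrime] (q0 : Ideal A) [q0.IsPrime] (hq : ∀ a, a ∈ q0 ↔ i a ∈ q)
    (H : Algebra.IsSmoothAt D q0) : Algebra.IsSmoothAt O q := by
  refine Algebra.FormallySmooth.of_comp_surjective fun C _ _ I hI f => ?_
  let _ : Algebra D C := ((algebraMap O C).comp (algebraMap D O)).toAlgebra
  have : IsScalarTower D O C := IsScalarTower.of_algebraMap_eq' rfl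
  have : IsScalarTower D O (C ⧸ I) := by infer_instance
  have : IsScalarTower D B (Localization.AtPrime q) := by infer_instance
  have : IsScalarTower D O (Localization.AtPrime q) := by infer_instance
  let j : Localization.AtPrime q0 →ₐ[D] Localization.AtPrime q :=
    IsLocalization.liftAlgHom (M := q0.primeCompl)
      (f := (IsScalarTower.toAlgHom D B (Localization.AtPrime q)).comp i) (fun y => by
        have h1 : i (y : A) ∈ q.primeCompl := fun h => y.2 ((hq _).2 h)
        exact IsLocalization.map_units (Localization.AtPrime q) ⟨i (y : A), h1⟩)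
  have hj : ∀ a : A, j (algebraMap A _ a) = algebraMap B _ (i a) := by
    intro a
    exact IsLocalization.lift_eq _ _
  obtain ⟨g, hg⟩ := Algebra.FormallySmooth.comp_surjective D (Localization.AtPrime q0) I hI
    ((f.restrictScalars D).comp j)
  let g' : A →ₐ[D] C := g.comp (IsScalarTower.toAlgHom D A (Localization.AtPrime q0))
  let e : O ⊗[D] A ≃ₐ[O] B := AlgEquiv.ofBijective _ hb
  let h : O ⊗[D] A →ₐ[O] C := Algebra.TensorProduct.lift (Algebra.ofId O C) g'
    (fun _ _ => Commute.all _ _)
  let h' : B →ₐ[O] C := h.comp (e.symm : B →ₐ[O] O ⊗[D] A)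
  have key0 : ∀ x : O ⊗[D] A, Ideal.Quotient.mk I (h x) = f (algebraMap B _ (e x)) := by
    intro x
    induction x using TensorProduct.induction_on with
    | zero => simp only [map_zero]
    | add x y hx hy => rw [map_add, map_add, map_add, map_add, map_add, hx, hy]
    | tmul o a =>
      have h1 : h (o ⊗ₜ[D] a) = algebraMap O C o * g' a := rfl
      have h2 : e (o ⊗ₜ[D] a) = algebraMap O B o * i a := rfl
      have h3 : Ideal.Quotient.mk I (g' a) = f (algebraMap B _ (i a)) := by
        rw [← hj]
        exact DFunLike.congr_fun hg (algebraMap A _ a)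
      have h4 : f (algebraMap B (Localization.AtPrime q) (algebraMap O B o)) =
          Ideal.Quotient.mk I (algebraMap O C o) := by
        rw [← IsScalarTower.algebraMap_apply O B (Localization.AtPrime q), AlgHom.commutes]
        rfl
      rw [h1, h2, map_mul, map_mul, map_mul, h3, h4]
  have key : ∀ b : B, Ideal.Quotient.mk I (h' b) = f (algebraMap B _ b) := by
    intro b
    have h1 := key0 (e.symm b)
    rwa [e.apply_symm_apply] at h1
  have hu : ∀ y : q.primeCompl, IsUnit (h' y) := by
    intro y
    apply (IsNilpotent.isUnit_quotient_mk_iff ⟨2, hI⟩).mp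
    rw [key]
    exact (IsLocalization.map_units (Localization.AtPrime q) y).map f
  refine ⟨IsLocalization.liftAlgHom (M := q.primeCompl) (f := h') hu, ?_⟩
  apply AlgHom.coe_ringHom_injective
  refine IsLocalization.ringHom_ext q.primeCompl ?_
  ext b
  change Ideal.Quotient.mk I (IsLocalization.lift hu (algebraMap B _ b)) = f (algebraMap B _ b)
  rw [IsLocalization.lift_eq]
  exact key b

end Pool.Agent.Y67.G6
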