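import Pool.Agent.Y223.G.Stm6
import Pool.Agent.Y563.G.Ldg
import Pool.Agent.Y67.G6.Sm0

/-!
# Base change of smoothness (S_SMB), project G of helper223
-/

set_option autoImplicit false

namespace Pool.Agent.Y67.G6

open Pool.Agent.Y223.G

open scoped TensorProduct

theorem AZ_ft (D : Type) {K : Type} [CommRing D] [Field K] [Algebra D K] {m : ℕ}
    (z : Fin (m + 1) → K) (j : Fin (m + 1)) : Algebra.FiniteType D (AZ D z j) := by
  rw [← Subalgebra.fg_iff_finiteType]
  exact Subalgebra.fg_def.2 ⟨_, Set.finite_range _, rfl⟩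

/-- If a chart is smooth at some prime then the base is contained in the field. -/
theorem inj_of_smooth {D K : Type} [CommRing D] [IsDomain D] [IsDedekindDomain D] [Field K]
    [Algebra D K] {m : ℕ} (z : Fin (m + 1) → K) (j : Fin (m + 1)) (q : Ideal (AZ D z j))
    [q.IsPrime] (H : Algebra.IsSmoothAt D q) : Function.Injective (algebraMap D K) := by
  have hft := AZ_ft D z j
  have hfp : Algebra.FinitePresentation D (AZ D z j) := Algebra.FinitePresentation.of_finiteType.1 hft
  obtain ⟨f, hf, hs⟩ := Algebra.IsSmoothAt.exists_notMem_smooth D q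
  have hfl : Module.Flat D (Localization.Away f) := inferInstance
  rw [injective_iff_map_eq_zero]
  intro p hp
  by_contra hp0
  have h1 : IsSMulRegular (Localization.Away f) p :=
    Module.Flat.isSMulRegular_of_nonZeroDivisors (mem_nonZeroDivisors_of_ne_zero hp0)
  have h2 : algebraMap D (AZ D z j) p = 0 := Subtype.ext hp
  have h3 : (1 : Localization.Away f) = 0 := by
    apply h1
    change p • (1 : Localization.Away f) = p • (0 : Localization.Away f)
    rw [smul_zero, Algebra.smul_def, mul_one,
      IsScalarTower.algebraMap_apply D (AZ D z j) (Localization.Away f), h2, map_zero]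
  have h4 : algebraMap (AZ D z j) (Localization.Away f) 1 =
      algebraMap (AZ D z j) (Localization.Away f) 0 := by
    rw [map_one, map_zero, h3]
  obtain ⟨⟨c, n, hc⟩, hc2⟩ := IsLocalization.exists_of_eq (M := Submonoid.powers f) h4
  rw [mul_one, mul_zero] at hc2
  have h5 : f ^ n = 0 := hc.trans hc2
  exact hf (Ideal.IsPrime.mem_of_pow_mem inferInstance n (h5 ▸ q.zero_mem))

/-- The inclusion of a chart over a smaller base. -/
def inc {D O K : Type} [CommRing D] [CommRing O] [Field K] [Algebra D O] [Algebra D K]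
    [Algebra O K] [IsScalarTower D O K] (A : Subalgebra D K) (B : Subalgebra O K)
    (h : ∀ x ∈ A, x ∈ B) : A →ₐ[D] B where
  toFun x := ⟨x, h x x.2⟩
  map_one' := rfl
  map_mul' _ _ := rfl
  map_zero' := rfl
  map_add' _ _ := rfl
  commutes' _ := Subtype.ext rfl

theorem lift_coe {D O K : Type} [CommRing D] [CommRing O] [Field K] [Algebra D O] [Algebra D K]
    [Algebra O K] [IsScalarTower D O K] (A : Subalgebra D K) (B : Subalgebra O K)
    (h : ∀ x ∈ A, x ∈ B) (o : O) (a : A) :
    ((Algebra.TensorProduct.lift (Algebra.ofId O B) (inc A B h) (fun _ _ => Commute.all _ _)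
      (o ⊗ₜ[D] a) : B) : K) = algebraMap O K o * a := by
  rw [Algebra.TensorProduct.lift_tmul]
  rfl

theorem lift_inj {D O K : Type} [CommRing D] [CommRing O] [Field K] [Algebra D O] [Algebra D K]
    [Algebra O K] [IsScalarTower D O K] (A : Subalgebra D K) (B : Subalgebra O K)
    (h : ∀ x ∈ A, x ∈ B) (hinj : Function.Injective (algebraMap O K))
    (hld : A.LinearDisjoint (IsScalarTower.toAlgHom D O K).range) :
    Function.Injective (Algebra.TensorProduct.lift (Algebra.ofId O B) (inc A B h)
      (fun _ _ => Commute.all _ _)) := by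
  let e0 : O ≃ₐ[D] (IsScalarTower.toAlgHom D O K).range :=
    AlgEquiv.ofInjective (IsScalarTower.toAlgHom D O K) hinj
  let E : O ⊗[D] A ≃ₗ[D] A ⊗[D] (IsScalarTower.toAlgHom D O K).range :=
    (TensorProduct.comm D O A).trans
      (TensorProduct.congr (LinearEquiv.refl D A) e0.toLinearEquiv)
  have hE : ∀ (o : O) (a : A), E (o ⊗ₜ[D] a) = a ⊗ₜ[D] (e0 o) := fun o a => rfl
  have hm := Subalgebra.linearDisjoint_iff_injective.1 hld
  have key : ∀ x : O ⊗[D] A, ((Algebra.TensorProduct.lift (Algebra.ofId O B) (inc A B h)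
      (fun _ _ => Commute.all _ _) x : B) : K) =
      A.mulMap (IsScalarTower.toAlgHom D O K).range (E x) := by
    intro x
    induction x using TensorProduct.induction_on with
    | zero =>
      rw [map_zero, map_zero, map_zero, ZeroMemClass.coe_zero]
    | add x y hx hy =>
      rw [map_add, map_add, map_add, ← hx, ← hy, AddMemClass.coe_add]
    | tmul o a =>
      rw [lift_coe, hE, Subalgebra.mulMap_tmul, mul_comm]
      rfl
  intro x y hxy
  apply E.injective
  apply hm
  rw [← key, ← key, hxy]

theorem lift_surj {D O K : Type} [CommRing D] [CommRing O] [Field K] [Algebra D O] [Algebra D K]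
    [Algebra O K] [IsScalarTower D O K] (s : Set K)
    (h : ∀ x ∈ Algebra.adjoin D s, x ∈ Algebra.adjoin O s) :
    Function.Surjective (Algebra.TensorProduct.lift (Algebra.ofId O (Algebra.adjoin O s))
      (inc (Algebra.adjoin D s) (Algebra.adjoin O s) h) (fun _ _ => Commute.all _ _)) := by
  have hs : ∀ x ∈ Algebra.adjoin O s, ∃ y : O ⊗[D] (Algebra.adjoin D s),
      ((Algebra.TensorProduct.lift (Algebra.ofId O (Algebra.adjoin O s))
        (inc (Algebra.adjoin D s) (Algebra.adjoin O s) h)
        (fun _ _ => Commute.all _ _) y : Algebra.adjoin O s) : K) = x := by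
    intro x hx
    induction hx using Algebra.adjoin_induction with
    | mem x hx =>
      refine ⟨1 ⊗ₜ[D] ⟨x, Algebra.subset_adjoin hx⟩, ?_⟩
      rw [lift_coe, map_one, one_mul]
    | algebraMap r =>
      refine ⟨r ⊗ₜ[D] 1, ?_⟩
      rw [lift_coe, OneMemClass.coe_one, mul_one]
    | add x y _ _ hx hy =>
      obtain ⟨x', rfl⟩ := hx
      obtain ⟨y', rfl⟩ := hy
      exact ⟨x' + y', by rw [map_add, AddMemClass.coe_add]⟩
    | mul x y _ _ hx hy =>
      obtain ⟨x', rfl⟩ := hx
      obtain ⟨y', rfl⟩ := hy
      exact ⟨x' * y', by rw [map_mul, MulMemClass.coe_mul]⟩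
  intro b
  obtain ⟨y, hy⟩ := hs b b.2
  exact ⟨y, Subtype.ext hy⟩

/-- **G6-SMB.** -/
theorem t_SMB : S_SMB := by
  intro D O L M K _ _ _ _ _ _ _ _ _ _ _ _ _ _ _ _ _ _ hinj hD hL hM m z hz hLD S H j q _ hq
  have hAB : ∀ x ∈ AZ D z j, x ∈ AZ O z j := by
    intro x hx
    unfold AZ at hx ⊢
    induction hx using Algebra.adjoin_induction with
    | mem x hx => exact Algebra.subset_adjoin hx
    | algebraMap r =>
      rw [IsScalarTower.algebraMap_apply D O K]
      exact Subalgebra.algebraMap_mem _ _
    | add x y _ _ hx hy => exact add_mem hx hy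
    | mul x y _ _ hx hy => exact mul_mem hx hy
  let i : AZ D z j →ₐ[D] AZ O z j := inc _ _ hAB
  have hst : IsScalarTower D O (AZ O z j) := inferInstance
  have hp : (q.comap (i : AZ D z j →+* AZ O z j)).IsPrime := Ideal.IsPrime.comap _
  have hsm : Algebra.IsSmoothAt D (q.comap (i : AZ D z j →+* AZ O z j)) := by
    refine H j _ ?_
    intro e he
    have h1 := hq e he
    rw [← IsScalarTower.algebraMap_apply D O (AZ O z j)] at h1
    change i (algebraMap D _ e) ∈ q
    rw [AlgHom.commutes]
    exact h1
  have hDK : Function.Injective (algebraMap D K) := inj_of_smooth z j _ hsm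
  have hld : (AZ D z j).LinearDisjoint (IsScalarTower.toAlgHom D O K).range := by
    refine Pool.Agent.Y563.GL.t_LDG D L K hDK hD hL (AZ D z j) _
      (IntermediateField.adjoin L {y : K | ∃ j, y = z j / z 0}).toSubalgebra
      (IsScalarTower.toAlgHom L M K).range ?_ ?_ hLD
    · intro x hx
      unfold AZ at hx
      induction hx using Algebra.adjoin_induction with
      | mem x hx =>
        obtain ⟨l, rfl⟩ := hx
        have h1 : z l / z j = (z l / z 0) / (z j / z 0) := by
          rw [div_div_div_cancel_right₀ (hz 0)]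
        change z l / z j ∈ IntermediateField.adjoin L {y : K | ∃ j, y = z j / z 0}
        rw [h1]
        exact div_mem (IntermediateField.subset_adjoin L _ ⟨l, rfl⟩)
          (IntermediateField.subset_adjoin L _ ⟨j, rfl⟩)
      | algebraMap r =>
        obtain ⟨x, hx⟩ := hD r
        rw [← hx]
        exact Subalgebra.algebraMap_mem _ _
      | add x y _ _ hx hy => exact add_mem hx hy
      | mul x y _ _ hx hy => exact mul_mem hx hy
    · rintro _ ⟨o, rfl⟩
      obtain ⟨x, hx⟩ := hM o
      exact ⟨x, hx⟩
  exact smooth_bc i ⟨lift_inj _ _ hAB hinj hld, lift_surj _ hAB⟩ q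
    (q.comap (i : AZ D z j →+* AZ O z j)) (fun a => Iff.rfl) hsm

end Pool.Agent.Y67.G6
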