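import Pool.Agent.Y223.G.Stm6
import Pool.Agent.Y67.G6.Sm0

/-!
# Transport of smoothness (S_SMT), project G of helper223
-/

set_option autoImplicit false

namespace Pool.Agent.Y67.G6

open Pool.Agent.Y223.G

theorem AZ_map {O K : Type} [CommRing O] [Field K] [Algebra O K] (τ : K →+* K) (t : O → O)
    (h : ∀ o, τ (algebraMap O K o) = algebraMap O K (t o)) {m : ℕ} (z z' : Fin (m + 1) → K)
    (hz : ∀ j, z' j = τ (z j)) (j : Fin (m + 1)) {x : K} (hx : x ∈ AZ O z j) :
    τ x ∈ AZ O z' j := by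
  unfold AZ at hx ⊢
  induction hx using Algebra.adjoin_induction with
  | mem x hx =>
    obtain ⟨l, rfl⟩ := hx
    refine Algebra.subset_adjoin ⟨l, ?_⟩
    change z' l / z' j = τ (z l / z j)
    rw [hz, hz, map_div₀]
  | algebraMap r =>
    rw [h]
    exact Subalgebra.algebraMap_mem _ _
  | add x y _ _ hx hy =>
    rw [map_add]
    exact add_mem hx hy
  | mul x y _ _ hx hy =>
    rw [map_mul]
    exact mul_mem hx hy

/-- **G6-SMT.** -/
theorem t_SMT : S_SMT := by
  intro k O K _ _ _ _ _ _ _ τ t ht m z z' hz S S' hS H j q' _ hq'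
  have h1 : ∀ x ∈ AZ O z j, τ x ∈ AZ O z' j := fun x hx =>
    AZ_map ((τ : K ≃+* K) : K →+* K) t ht z z' hz j hx
  have h2 : ∀ x ∈ AZ O z' j, τ.symm x ∈ AZ O z j := fun x hx =>
    AZ_map ((τ.symm : K ≃+* K) : K →+* K) t.symm
      (fun o => by
        change τ.symm (algebraMap O K o) = _
        rw [AlgEquiv.symm_apply_eq, ht, AlgEquiv.apply_symm_apply])
      z' z
      (fun j => by
        change z j = τ.symm (z' j)
        rw [hz, AlgEquiv.symm_apply_apply]) j hx
  let φ : AZ O z j ≃+* AZ O z' j :=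
    { toFun := fun x => ⟨τ x, h1 x x.2⟩
      invFun := fun y => ⟨τ.symm y, h2 y y.2⟩
      left_inv := fun x => Subtype.ext (τ.symm_apply_apply _)
      right_inv := fun y => Subtype.ext (τ.apply_symm_apply _)
      map_mul' := fun x y => Subtype.ext (map_mul τ _ _)
      map_add' := fun x y => Subtype.ext (map_add τ _ _) }
  have hφ : ∀ o, φ (algebraMap O (AZ O z j) o) =
      algebraMap O (AZ O z' j) ((t : O ≃+* O) o) := fun o => Subtype.ext (ht o)
  have hp : (q'.comap (φ : AZ O z j →+* AZ O z' j)).IsPrime := Ideal.IsPrime.comap _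
  refine smooth_transport (t : O ≃+* O) φ hφ q' (q'.comap (φ : AZ O z j →+* AZ O z' j))
    (fun a => Iff.rfl) (H j _ ?_)
  intro e he
  change φ (algebraMap O _ e) ∈ q'
  rw [hφ]
  exact hq' _ (hS e he)

end Pool.Agent.Y67.G6
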